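import Pool.Agent.Q91.PT.Stm

/-!
# Job SGE of project PT (helper91): the fibres of the surgery
-/

set_option autoImplicit false

namespace Pool.Agent.Q177.PT.SGE

open Finset Pool.Agent.H976R2 Pool.Agent.H976R2.Lip Pool.Agent.H739K Pool.Agent.H924P
open Pool.Agent.Q91.PT
open scoped Classical

noncomputable section

/-- the words of length at most `k` -/
def Wl (k : ℕ) : Finset (List Dir) := (List.finite_length_le Dir k).toFinset

lemma mem_Wl (k : ℕ) (u : List Dir) : u ∈ Wl k ↔ u.length ≤ k := by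
  unfold Wl
  rw [Set.Finite.mem_toFinset]
  rfl

/-- an occurrence of `Q` -/
lemma occ_pos {Q f : List Dir} (h : 1 ≤ occ Q f) :
    ∃ o, o ≤ f.length ∧ (f.drop o).take Q.length = Q := by
  unfold occ at h
  obtain ⟨o, ho⟩ := Finset.card_pos.1 h
  unfold occS at ho
  rw [mem_filter, mem_range] at ho
  exact ⟨o, by omega, ho.2⟩

/-- the chosen occurrence -/
def oo (r : ℕ) (fl : ℤ × ℤ → ℤ × ℤ → List Dir) (Q : List Dir) (p : List Dir × ℕ) : ℕ :=
  if h : ∃ o, o ≤ (fw r fl p.1 p.2).length ∧ ((fw r fl p.1 p.2).drop o).take Q.length = Q then h.choose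
  else 0

/-- the data of a surgery -/
def dat (r : ℕ) (fl : ℤ × ℤ → ℤ × ℤ → List Dir) (Q : List Dir) (p : List Dir × ℕ) :
    ℕ × ℕ × ℕ × List Dir × ℕ :=
  (fv r p.1 p.2 + oo r fl Q p, oo r fl Q p, (fw r fl p.1 p.2).length,
    (p.1.drop (fv r p.1 p.2)).take (lv r p.1 p.2 - fv r p.1 p.2), p.2 - fv r p.1 p.2)

/-- reconstruction -/
def dec (w' : List Dir) (x : ℕ × ℕ × ℕ × List Dir × ℕ) : List Dir × ℕ :=
  (w'.take (x.1 - x.2.1) ++ (x.2.2.2.1 ++ w'.drop (x.1 - x.2.1 + x.2.2.1)), x.1 - x.2.1 + x.2.2.2.2)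

lemma sg_take {r : ℕ} {fl : ℤ × ℤ → ℤ × ℤ → List Dir} {w : List Dir} {j : ℕ}
    (h : fv r w j ≤ w.length) : (sg r fl w j).take (fv r w j) = w.take (fv r w j) := by
  unfold sg
  rw [List.append_assoc]
  have e : (w.take (fv r w j)).length = fv r w j := by rw [List.length_take]; omega
  exact List.take_left' e

lemma sg_drop {r : ℕ} {fl : ℤ × ℤ → ℤ × ℤ → List Dir} {w : List Dir} {j : ℕ}
    (h : fv r w j ≤ w.length) (k : ℕ) :
    (sg r fl w j).drop (fv r w j + k) = (fw r fl w j ++ w.drop (lv r w j)).drop k := by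
  unfold sg
  rw [List.append_assoc, ← List.drop_drop]
  have e : (w.take (fv r w j)).length = fv r w j := by rw [List.length_take]; omega
  congr 1
  exact List.drop_left' e

theorem t (hA : S_sga) : S_sge := by
  intro r L m Q fl hr hQ hF
  refine ⟨(L + 1) * ((L + 1) * ((Wl (2 * m)).card * (m + 1))), ?_⟩
  intro w' T hT
  have key : ∀ p ∈ T, oo r fl Q p ≤ (fw r fl p.1 p.2).length ∧
      ((fw r fl p.1 p.2).drop (oo r fl Q p)).take Q.length = Q ∧ (fw r fl p.1 p.2).length ≤ L ∧
      fv r p.1 p.2 < p.2 ∧ p.2 < lv r p.1 p.2 ∧ lv r p.1 p.2 + 1 ≤ p.1.length ∧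
      p.2 ≤ fv r p.1 p.2 + m ∧ lv r p.1 p.2 ≤ p.2 + m := by
    intro p hp
    obtain ⟨h1, h2, h3⟩ := hT p hp
    obtain ⟨a1, a2, a3, a4, a5, a6, a7, a8, a9, a10⟩ := hA r m p.1 p.2 hr h1 h2
    have b1 := hF.len _ _ a8 a9 a10
    have b2 := hF.pat _ _ a8 a9 a10
    have b3 := occ_pos b2
    have b4 : ∃ o, o ≤ (fw r fl p.1 p.2).length ∧
        ((fw r fl p.1 p.2).drop o).take Q.length = Q := b3
    have b5 : oo r fl Q p = b4.choose := dif_pos b4
    rw [b5]
    exact ⟨b4.choose_spec.1, b4.choose_spec.2, b1, a2, a3, a4, a5, a6⟩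
  have hdec : ∀ p ∈ T, dec w' (dat r fl Q p) = p := by
    intro p hp
    obtain ⟨h1, h2, h3⟩ := hT p hp
    obtain ⟨k1, k2, k3, k4, k5, k6, k7, k8⟩ := key p hp
    unfold dec dat
    dsimp only
    have e1 : fv r p.1 p.2 + oo r fl Q p - oo r fl Q p = fv r p.1 p.2 := by omega
    rw [e1]
    have hle : fv r p.1 p.2 ≤ p.1.length := by omega
    have e2 : w'.take (fv r p.1 p.2) = p.1.take (fv r p.1 p.2) := by
      rw [← h3]; exact sg_take hle
    have e3 : w'.drop (fv r p.1 p.2 + (fw r fl p.1 p.2).length) = p.1.drop (lv r p.1 p.2) := by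
      rw [← h3, sg_drop hle, List.drop_left' rfl]
    rw [e2, e3]
    have e4 : (p.1.drop (fv r p.1 p.2)).take (lv r p.1 p.2 - fv r p.1 p.2) ++
        p.1.drop (lv r p.1 p.2) = p.1.drop (fv r p.1 p.2) := by
      have e5 : p.1.drop (lv r p.1 p.2) =
          (p.1.drop (fv r p.1 p.2)).drop (lv r p.1 p.2 - fv r p.1 p.2) := by
        rw [List.drop_drop]
        congr 1
        omega
      rw [e5, List.take_append_drop]
    rw [e4, List.take_append_drop]
    have e6 : fv r p.1 p.2 + (p.2 - fv r p.1 p.2) = p.2 := by omega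
    rw [e6]
  have hmem : ∀ p ∈ T, dat r fl Q p ∈ occS Q w' ×ˢ (range (L + 1) ×ˢ (range (L + 1) ×ˢ
      (Wl (2 * m) ×ˢ range (m + 1)))) := by
    intro p hp
    obtain ⟨h1, h2, h3⟩ := hT p hp
    obtain ⟨k1, k2, k3, k4, k5, k6, k7, k8⟩ := key p hp
    have hle : fv r p.1 p.2 ≤ p.1.length := by omega
    have hQl : 0 < Q.length := List.length_pos_of_ne_nil hQ
    have hfl : Q.length ≤ ((fw r fl p.1 p.2).drop (oo r fl Q p)).length := by
      have := congrArg List.length k2
      rw [List.length_take] at this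
      omega
    have e1 : (w'.drop (fv r p.1 p.2 + oo r fl Q p)).take Q.length = Q := by
      rw [← h3, sg_drop hle, List.drop_append_of_le_length k1, List.take_append_of_le_length hfl, k2]
    have e2 : fv r p.1 p.2 + oo r fl Q p < w'.length + 1 := by
      have := congrArg List.length e1
      rw [List.length_take, List.length_drop] at this
      omega
    unfold dat
    rw [mem_product, mem_product, mem_product, mem_product]
    refine ⟨?_, ?_, ?_, ?_, ?_⟩
    · unfold occS
      rw [mem_filter, mem_range]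
      exact ⟨e2, e1⟩
    · rw [mem_range]; dsimp only; omega
    · rw [mem_range]; dsimp only; omega
    · rw [mem_Wl]
      dsimp only
      rw [List.length_take]
      omega
    · rw [mem_range]; dsimp only; omega
  have hinj : Set.InjOn (dat r fl Q) T := by
    intro p hp q hq hpq
    rw [← hdec p hp, ← hdec q hq, hpq]
  have h := Finset.card_le_card_of_injOn (dat r fl Q) hmem hinj
  rw [card_product, card_product, card_product, card_product, card_range, card_range] at h
  have e : (occS Q w').card = occ Q w' := rfl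
  rw [e] at h
  rw [mul_comm]
  exact h

end

end Pool.Agent.Q177.PT.SGE
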