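import Pool.Agent.Q169.PT.Stm

/-! # Project PT (helper169), job TF (helper177): a group with a finite free resolution is torsion-free -/

set_option autoImplicit false

namespace Pool.Agent.Q177.PT

open scoped Matrix
open Pool.Agent.H919R4.ZS (FinRes augm)
open Finset

variable {G : Type} [Group G]

/-- the group element in the group ring -/
noncomputable def tt (g : G) : MonoidAlgebra ℤ G := MonoidAlgebra.of ℤ G g

/-- the norm -/
noncomputable def Ng (g : G) : MonoidAlgebra ℤ G := ∑ k ∈ range (orderOf g), tt g ^ k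

lemma tt_mul (g h : G) : tt g * tt h = tt (g * h) := by unfold tt; rw [map_mul]

lemma tt_one : tt (1 : G) = 1 := by unfold tt; rw [map_one]

lemma tt_pow (g : G) (k : ℕ) : tt g ^ k = tt (g ^ k) := by unfold tt; rw [map_pow]

lemma tt_inv_mul (g : G) : tt g⁻¹ * tt g = 1 := by rw [tt_mul, inv_mul_cancel, tt_one]

lemma tt_mul_inv (g : G) : tt g * tt g⁻¹ = 1 := by rw [tt_mul, mul_inv_cancel, tt_one]

lemma s_N (g : G) : (tt g - 1) * Ng g = 0 := by
  unfold Ng
  rw [mul_geom_sum, tt_pow, pow_orderOf_eq_one, tt_one, sub_self]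

lemma N_s (g : G) : Ng g * (tt g - 1) = 0 := by
  unfold Ng
  rw [geom_sum_mul, tt_pow, pow_orderOf_eq_one, tt_one, sub_self]

open Classical in
/-- the restriction to a set -/
noncomputable def rs (T : Set G) : MonoidAlgebra ℤ G →+ MonoidAlgebra ℤ G where
  toFun x := MonoidAlgebra.ofCoeff (x.coeff.filter (· ∈ T))
  map_zero' := by
    rw [MonoidAlgebra.coeff_zero, Finsupp.filter_zero]
    rfl
  map_add' x y := by
    rw [MonoidAlgebra.coeff_add, Finsupp.filter_add]
    rfl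

lemma rs_pos {T : Set G} {h : G} (a : ℤ) (hh : h ∈ T) :
    rs T (MonoidAlgebra.single h a) = MonoidAlgebra.single h a := by
  classical
  unfold rs
  change MonoidAlgebra.ofCoeff ((Finsupp.single h a).filter (· ∈ T)) = _
  rw [Finsupp.filter_single_of_pos _ hh]
  rfl

lemma rs_neg {T : Set G} {h : G} (a : ℤ) (hh : h ∉ T) :
    rs T (MonoidAlgebra.single h a) = 0 := by
  classical
  unfold rs
  change MonoidAlgebra.ofCoeff ((Finsupp.single h a).filter (· ∈ T)) = _
  rw [Finsupp.filter_single_of_neg _ hh]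
  rfl

/-- a set of representatives of the cosets of a finite cyclic subgroup -/
lemma exists_rep {g : G} (hg : IsOfFinOrder g) : ∃ T : Set G, ∀ h : G,
    ∃ k < orderOf g, ∀ j < orderOf g, (g⁻¹ ^ j * h ∈ T ↔ j = k) := by
  classical
  obtain ⟨T, hT, -⟩ := Subgroup.exists_isComplement_right (Subgroup.zpowers g) 1
  refine ⟨T, fun h => ?_⟩
  obtain ⟨⟨c, t⟩, hct, huniq⟩ := hT.existsUnique h
  simp only at hct
  obtain ⟨c, hc⟩ := c
  obtain ⟨t, ht⟩ := t
  simp only at hct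
  have hc' : c ∈ Subgroup.zpowers g := hc
  rw [← hg.mem_powers_iff_mem_zpowers, hg.mem_powers_iff_mem_range_orderOf] at hc'
  obtain ⟨k, hk, hkc⟩ := Finset.mem_image.1 hc'
  rw [Finset.mem_range] at hk
  refine ⟨k, hk, fun j hj => ?_⟩
  constructor
  · intro h1
    have h2 := huniq (⟨g ^ j, (Subgroup.zpowers g).pow_mem (Subgroup.mem_zpowers g) j⟩, ⟨g⁻¹ ^ j * h, h1⟩) (by
      simp)
    have h3 : g ^ j = c := by
      have := congrArg (fun p => (p.1 : G)) h2
      simpa using this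
    rw [← hkc] at h3
    exact pow_injOn_Iio_orderOf (Set.mem_Iio.2 hj) (Set.mem_Iio.2 hk) h3
  · rintro rfl
    have h1 : g⁻¹ ^ j * h = t := by
      rw [← hct, ← hkc]
      simp
    rw [h1]
    exact ht

lemma decomp {g : G} (hg : IsOfFinOrder g) : ∃ P : MonoidAlgebra ℤ G →+ MonoidAlgebra ℤ G,
    ∀ x, x = ∑ k ∈ range (orderOf g), tt g ^ k * P (tt g⁻¹ ^ k * x) := by
  obtain ⟨T, hT⟩ := exists_rep hg
  refine ⟨rs T, fun x => ?_⟩
  induction x using MonoidAlgebra.induction_linear with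
  | zero => simp
  | add x y hx hy =>
    simp only [mul_add, map_add, sum_add_distrib]
    rw [← hx, ← hy]
  | single h a =>
    obtain ⟨k, hk, hT⟩ := hT h
    have e : ∀ j, tt g⁻¹ ^ j * MonoidAlgebra.single h a = MonoidAlgebra.single (g⁻¹ ^ j * h) a := by
      intro j
      rw [tt_pow]
      unfold tt
      rw [MonoidAlgebra.of_apply, MonoidAlgebra.single_mul_single, one_mul]
    simp only [e]
    rw [Finset.sum_eq_single k]
    · rw [rs_pos a ((hT k hk).2 rfl), tt_pow]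
      unfold tt
      rw [MonoidAlgebra.of_apply, MonoidAlgebra.single_mul_single, one_mul]
      congr 1
      simp
    · intro j hj hjk
      rw [rs_neg a (fun h => hjk ((hT j (Finset.mem_range.1 hj)).1 h)), mul_zero]
    · intro h
      exact absurd (Finset.mem_range.2 hk) h

lemma inv_pow_mul_pow (g : G) (k : ℕ) : tt g ^ k * tt g⁻¹ ^ k = 1 := by
  rw [tt_pow, tt_pow, tt_mul, inv_pow, mul_inv_cancel, tt_one]

/-- the sum of the inverses is the norm -/
lemma sum_inv {g : G} : ∑ k ∈ range (orderOf g), tt g⁻¹ ^ k = Ng g := by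
  have h1 : ∑ k ∈ range (orderOf g), tt g⁻¹ ^ k = ∑ k ∈ range (orderOf g), tt g * tt g ^ (orderOf g - 1 - k) := by
    refine sum_congr rfl fun k hk => ?_
    rw [Finset.mem_range] at hk
    have h2 : tt g * tt g ^ (orderOf g - 1 - k) = tt (g ^ (orderOf g - k)) := by
      rw [← pow_succ', tt_pow]
      congr 2
      omega
    rw [h2, tt_pow]
    congr 1
    have h3 : g ^ (orderOf g - k) * g ^ k = 1 := by
      rw [← pow_add, Nat.sub_add_cancel hk.le, pow_orderOf_eq_one]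
    rw [inv_pow]
    exact (eq_inv_of_mul_eq_one_left h3).symm
  rw [h1, ← mul_sum, Finset.sum_range_reflect (fun k => tt g ^ k)]
  have h4 := s_N g
  unfold Ng at h4
  rw [sub_mul, one_mul, sub_eq_zero] at h4
  exact h4

/-- the elements killed by `g - 1` -/
lemma ker_s {g : G} (hg : IsOfFinOrder g) (x : MonoidAlgebra ℤ G) (h : (tt g - 1) * x = 0) :
    ∃ y, x = Ng g * y := by
  obtain ⟨P, hP⟩ := decomp hg
  rw [sub_mul, one_mul, sub_eq_zero] at h
  have h1 : tt g⁻¹ * x = x := by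
    conv_lhs => rw [← h]
    rw [← mul_assoc, tt_inv_mul, one_mul]
  have h2 : ∀ k : ℕ, tt g⁻¹ ^ k * x = x := by
    intro k
    induction k with
    | zero => rw [pow_zero, one_mul]
    | succ k ih => rw [pow_succ, mul_assoc, h1, ih]
  refine ⟨P x, ?_⟩
  have h3 := hP x
  simp only [h2] at h3
  unfold Ng
  rw [sum_mul]
  exact h3

/-- the elements killed by the norm -/
lemma ker_N {g : G} (hg : IsOfFinOrder g) (x : MonoidAlgebra ℤ G) (h : Ng g * x = 0) :
    ∃ y, x = (tt g - 1) * y := by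
  obtain ⟨P, hP⟩ := decomp hg
  have h1 : ∑ k ∈ range (orderOf g), P (tt g⁻¹ ^ k * x) = 0 := by
    rw [← map_sum, ← sum_mul, sum_inv, h, map_zero]
  refine ⟨∑ k ∈ range (orderOf g), (∑ i ∈ range k, tt g ^ i) * P (tt g⁻¹ ^ k * x), ?_⟩
  rw [mul_sum]
  have h2 : ∀ k ∈ range (orderOf g), (tt g - 1) * ((∑ i ∈ range k, tt g ^ i) * P (tt g⁻¹ ^ k * x)) =
      tt g ^ k * P (tt g⁻¹ ^ k * x) - P (tt g⁻¹ ^ k * x) := by
    intro k _
    rw [← mul_assoc, mul_geom_sum, sub_mul, one_mul]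
  rw [sum_congr rfl h2, sum_sub_distrib, h1, sub_zero]
  exact hP x

lemma ker_s_vec {g : G} (hg : IsOfFinOrder g) {n : ℕ} (x : Fin n → MonoidAlgebra ℤ G)
    (h : (tt g - 1) • x = 0) : ∃ y, x = Ng g • y := by
  have h1 : ∀ j, ∃ y, x j = Ng g * y := fun j => ker_s hg (x j) (congrFun h j)
  choose y hy using h1
  exact ⟨y, funext hy⟩

lemma ker_N_vec {g : G} (hg : IsOfFinOrder g) {n : ℕ} (x : Fin n → MonoidAlgebra ℤ G)
    (h : Ng g • x = 0) : ∃ y, x = (tt g - 1) • y := by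
  have h1 : ∀ j, ∃ y, x j = (tt g - 1) * y := fun j => ker_N hg (x j) (congrFun h j)
  choose y hy using h1
  exact ⟨y, funext hy⟩

lemma smul_vecMul' {m n : ℕ} (a : MonoidAlgebra ℤ G) (x : Fin m → MonoidAlgebra ℤ G)
    (D : Matrix (Fin m) (Fin n) (MonoidAlgebra ℤ G)) : (a • x) ᵥ* D = a • (x ᵥ* D) := by
  funext j
  simp only [Matrix.vecMul, dotProduct, Pi.smul_apply, smul_eq_mul, mul_sum, mul_assoc]

/-- the boundaries -/
def Bd (X : FinRes G) (i : ℕ) (x : Fin (X.n i) → MonoidAlgebra ℤ G) : Prop := ∃ y, y ᵥ* X.d i = x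

/-- one half of the step -/
lemma step {X : FinRes G} {i : ℕ} (a b : MonoidAlgebra ℤ G) (hba : b * a = 0)
    (hker : ∀ x : Fin (X.n (i + 1)) → MonoidAlgebra ℤ G, a • x = 0 → ∃ y, x = b • y)
    (h : ∀ x, Bd X (i + 1) x → b • x = 0 → ∃ y, Bd X (i + 1) y ∧ x = a • y)
    (x : Fin (X.n i) → MonoidAlgebra ℤ G) (hx : Bd X i x) (hax : a • x = 0) :
    ∃ y, Bd X i y ∧ x = b • y := by
  obtain ⟨z, hz⟩ := hx
  have h1 : Bd X (i + 1) (a • z) := by
    refine (X.exact_succ i _).1 ?_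
    rw [smul_vecMul', hz, hax]
  have h2 : b • (a • z) = 0 := by
    rw [smul_smul, hba, zero_smul]
  obtain ⟨y, hy, hay⟩ := h _ h1 h2
  have h3 : a • (z - y) = 0 := by rw [smul_sub, hay, sub_self]
  obtain ⟨u, hu⟩ := hker _ h3
  have h4 : y ᵥ* X.d i = 0 := (X.exact_succ i y).2 hy
  refine ⟨u ᵥ* X.d i, ⟨u, rfl⟩, ?_⟩
  rw [← smul_vecMul', ← hu, Matrix.sub_vecMul, h4, sub_zero, hz]

lemma claim {X : FinRes G} {g : G} (hg : IsOfFinOrder g) (m : ℕ) : ∀ i, X.len < i + m →
    (∀ x, Bd X i x → (tt g - 1) • x = 0 → ∃ y, Bd X i y ∧ x = Ng g • y) ∧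
    (∀ x, Bd X i x → Ng g • x = 0 → ∃ y, Bd X i y ∧ x = (tt g - 1) • y) := by
  induction m with
  | zero =>
    intro i hi
    rw [add_zero] at hi
    have h0 := X.n_eq_zero i hi
    haveI : IsEmpty (Fin (X.n i)) := by rw [h0]; infer_instance
    exact ⟨fun x hx _ => ⟨x, hx, Subsingleton.elim _ _⟩, fun x hx _ => ⟨x, hx, Subsingleton.elim _ _⟩⟩
  | succ m ih =>
    intro i hi
    have h1 := ih (i + 1) (by omega)
    constructor
    · exact step _ _ (N_s g) (fun x hx => ker_s_vec hg x hx) h1.2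
    · exact step _ _ (s_N g) (fun x hx => ker_N_vec hg x hx) h1.1

lemma augm_tt (g : G) : augm G (tt g) = 1 := by
  unfold augm tt
  change (MonoidAlgebra.lift ℤ ℤ G 1) (MonoidAlgebra.of ℤ G g) = 1
  rw [MonoidAlgebra.lift_of]
  rfl

theorem tf : Pool.Agent.Q169.PT.S_TF := by
  intro G _ X g hg
  by_contra hne
  have hpos := hg.orderOf_pos
  have h2 : orderOf g ≠ 1 := fun h => hne (orderOf_eq_one_iff.1 h)
  obtain ⟨x0, hx0⟩ := X.surj
  have hc := (claim (X := X) hg (X.len + 1) 0 (by omega)).2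
  have haug : ∀ (a : MonoidAlgebra ℤ G) (x : Fin (X.n 0) → MonoidAlgebra ℤ G),
      ∑ j, augm G ((a • x) j) * X.aug j = augm G a * ∑ j, augm G (x j) * X.aug j := by
    intro a x
    rw [mul_sum]
    refine sum_congr rfl fun j _ => ?_
    rw [Pi.smul_apply, smul_eq_mul, map_mul, mul_assoc]
  have h3 : Bd X 0 ((tt g - 1) • x0) := by
    refine (X.exact_zero _).1 ?_
    rw [haug, map_sub, augm_tt, map_one, sub_self, zero_mul]
  obtain ⟨y, hy, hxy⟩ := hc _ h3 (by rw [smul_smul, N_s, zero_smul])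
  have h4 : (tt g - 1) • (x0 - y) = 0 := by rw [smul_sub, hxy, sub_self]
  obtain ⟨u, hu⟩ := ker_s_vec hg _ h4
  have h5 : ∑ j, augm G (y j) * X.aug j = 0 := (X.exact_zero y).2 hy
  have h6 : ∑ j, augm G ((x0 - y) j) * X.aug j = 1 := by
    simp only [Pi.sub_apply, map_sub, sub_mul, sum_sub_distrib]
    rw [hx0, h5, sub_zero]
  rw [hu, haug] at h6
  have h7 : augm G (Ng g) = orderOf g := by
    unfold Ng
    rw [map_sum, sum_congr rfl fun k _ => by rw [map_pow, augm_tt, one_pow]]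
    simp
  rw [h7] at h6
  have h8 : (orderOf g : ℤ) ∣ 1 := Dvd.intro _ h6
  have h9 : orderOf g ∣ 1 := by exact_mod_cast h8
  exact h2 (Nat.dvd_one.1 h9)

end Pool.Agent.Q177.PT
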